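import Pool.Agent.Work.MP_e9cb08_gt.Final

/-!
# The boundary-integral inequality for non-negative convex functions

For every `n ≥ 3`, every convex `h ≥ 0` on `ℝ^(n-1)` and every compact convex `C`,
`∫_{∂C} (|y|² + h²) dH^(n-2) ≥ 2 ∫_C h √(1 + |∇h|²) ≥ (2/(n-1)) ∫_C h √(1 + |∇h|²)`.
-/

open MeasureTheory

theorem Pool.Agent.Results.MP_e9cb08_gt.BoundaryInequality.result
    (n : ℕ) (hn : 3 ≤ n)
    (h : EuclideanSpace ℝ (Fin (n - 1)) → ℝ) (hconv : ConvexOn ℝ Set.univ h)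
    (hnonneg : ∀ y, 0 ≤ h y)
    (C : Set (EuclideanSpace ℝ (Fin (n - 1)))) (hC : IsCompact C) (hCconv : Convex ℝ C) :
    IntegrableOn (fun y => ‖y‖ ^ 2 + h y ^ 2) (frontier C) μHE[n - 2] ∧
    IntegrableOn (fun z => h z * √(1 + ‖gradient h z‖ ^ 2)) C volume ∧
    2 / ((n : ℝ) - 1) * (∫ z in C, h z * √(1 + ‖gradient h z‖ ^ 2)) ≤
      2 * ∫ z in C, h z * √(1 + ‖gradient h z‖ ^ 2) ∧
    2 * (∫ z in C, h z * √(1 + ‖gradient h z‖ ^ 2)) ≤
      ∫ y in frontier C, (‖y‖ ^ 2 + h y ^ 2) ∂μHE[n - 2] := by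
  have hfr : Module.finrank ℝ (EuclideanSpace ℝ (Fin (n - 1))) - 1 = n - 2 := by
    rw [finrank_euclideanSpace_fin]
    omega
  have hpos : 0 < n - 1 := by omega
  have he0 : ‖(EuclideanSpace.single (⟨0, hpos⟩ : Fin (n - 1)) (1 : ℝ))‖ = 1 := by simp
  obtain ⟨h1, h2, h3⟩ := MP_e9cb08.main_integral hconv hnonneg he0 hC hCconv
  rw [hfr] at h1 h3
  refine ⟨h1, h2, ?_, h3⟩
  have hI : 0 ≤ ∫ z in C, h z * √(1 + ‖gradient h z‖ ^ 2) := by
    apply integral_nonneg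
    intro z
    have := hnonneg z
    positivity
  apply mul_le_mul_of_nonneg_right _ hI
  have hn3 : (3 : ℝ) ≤ n := by exact_mod_cast hn
  rw [div_le_iff₀ (by linarith)]
  linarith
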